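import Pool.Agent.MT100.StmtsP
import Pool.Agent.Helper33_MT.Fre
import Pool.Agent.Helper33_MTP.FreCoreP

/-!
# MT100-P, module FRP: freeness of the tensor products, polynomial parameter
-/

set_option autoImplicit false

namespace Pool.Agent.MT100.H33P

open Matrix Polynomial Pool.Agent.MT100.H33

theorem en_evalq (r : ℕ) (q : ℝ[X]) (t : ℝ) (l i : Fin r) :
    ((en r q) l i).eval t = en r (q.eval t) l i := by
  unfold en
  by_cases h : l ≤ i
  · rw [if_pos h, if_pos h]
    have h1 : ∀ (c : ℚ) (q : ℝ[X]), (c • q).eval t = c • q.eval t := by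
      intro c q
      rw [Algebra.smul_def, Algebra.smul_def, eval_mul]
      congr 1
      have : (algebraMap ℚ ℝ[X]) c = C ((algebraMap ℚ ℝ) c) := by
        rw [IsScalarTower.algebraMap_apply ℚ ℝ ℝ[X]]; rfl
      rw [this, eval_C]
    rw [h1, eval_pow]
  · rw [if_neg h, if_neg h, eval_zero]

theorem en_mapq (r : ℕ) (q : ℝ[X]) (t : ℝ) :
    (en r q).map (evalRingHom t) = en r (q.eval t) := by
  ext l i
  exact en_evalq r q t l i

/-- freeness for given data from the peeling theorem for these data -/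
theorem frpAt (hsym : SymStmt) (htrp : TrpStmt) (hvap : VapStmt) (D : Dat) (φ : ℚ[X])
    (hdeg : 0 < φ.natDegree) (hlead : 0 < φ.leadingCoeff) (ι : Type) [Fintype ι] [DecidableEq ι]
    (κ : ι → ℕ)
    (hpep : ∀ c : (ι → SI D.r) → (ι → SI D.r) → Polynomial (Polynomial ℝ),
      (∀ᶠ w : ℝ in Filter.atTop, ∑ β, ∑ α, evalEval w (Real.log w) (c β α) *
        ∏ i, sy (W D (pv φ (w - κ i))) (β i) (α i) = 0) → c = 0) :
    FreeE (kr fun i => sy (TrP D φ (κ i))) := by
  intro p hp
  obtain ⟨hs1, hs2, hs3, _⟩ := hsym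
  set q : ℝ[X] := C (φ.natDegree : ℝ) * X + C (Real.log (φ.leadingCoeff : ℝ)) with hq
  have hqe : ∀ t : ℝ, q.eval t = (φ.natDegree : ℝ) * t + Real.log (φ.leadingCoeff : ℝ) := by
    intro t
    rw [hq]
    simp
  have hd : (φ.natDegree : ℝ) ≠ 0 := by
    have := hdeg
    positivity
  have key := freCoreP (ι := ι) (d := SI D.r) (fun s w => sy (W D (pv φ (w - κ s))))
    (fun s => sy (TrP D φ (κ s))) (sy (en D.r q))
    (-(Real.log (φ.leadingCoeff : ℝ)) / (φ.natDegree : ℝ)) ?_ ?_ ?_ (fun α β => p α β) ?_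
  · ext α β
    rw [key α β]; rfl
  · intro a b
    have h := congrFun (congrFun (hs3 D.r ℝ[X] ℝ
      (evalRingHom (-(Real.log (φ.leadingCoeff : ℝ)) / (φ.natDegree : ℝ))) (en D.r q)) a) b
    rw [en_mapq, hqe, mul_div_cancel₀ _ hd, neg_add_cancel, en_zero, hs2] at h
    exact h.symm
  · have h1 : ∀ s : ι, ∀ᶠ w : ℝ in Filter.atTop, ∀ a b,
        HasSum (fun k => ((PowerSeries.coeff k (sy (TrP D φ (κ s)) a b) : ℚ) : ℝ) * (1 / w) ^ k)
          (∑ c, sy (W D (pv φ (w - κ s))) a c * (sy (en D.r q) c b).eval (Real.log w)) := by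
      intro s
      obtain ⟨K, N, q', B, hG⟩ := htrp D φ hdeg (κ s)
      have hcv : ∀ᶠ w : ℝ in Filter.atTop, ∀ a b, Cv w⁻¹ (TrP D φ (κ s) a b) := by
        rw [Filter.eventually_all]
        intro a
        rw [Filter.eventually_all]
        intro b
        exact cv_of_gtype (hG.gH a b)
      filter_upwards [hcv, hvap D φ hdeg hlead (κ s)] with w hw1 hw2
      intro a b
      have h2 : (TrP D φ (κ s)).map (fun f => MT100.ev f w⁻¹) =
          W D (pv φ (w - κ s)) * en D.r (q.eval (Real.log w)) := by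
        rw [hw2, Matrix.mul_assoc, en_mul_en, hqe, neg_add_cancel, en_zero, Matrix.mul_one]
      have h3 : ∀ (a b : SI D.r), Cv w⁻¹ (sy (TrP D φ (κ s)) a b) ∧
          H33.ev w⁻¹ (sy (TrP D φ (κ s)) a b) =
            sy ((TrP D φ (κ s)).map (fun f => MT100.ev f w⁻¹)) a b := by
        intro a b
        have h4 := hw1 a.1.1 b.1.1
        have h5 := hw1 a.1.2 b.1.2
        have h6 := hw1 a.1.1 b.1.2
        have h7 := hw1 a.1.2 b.1.1
        unfold sy
        by_cases hb : b.1.1 < b.1.2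
        · simp only [if_pos hb, Matrix.map_apply]
          refine ⟨cv_add (cv_mul h4 h5) (cv_mul h6 h7), ?_⟩
          rw [ev_add (cv_mul h4 h5) (cv_mul h6 h7), ev_mul h4 h5, ev_mul h6 h7]
          rfl
        · simp only [if_neg hb, Matrix.map_apply, add_zero]
          refine ⟨cv_mul h4 h5, ?_⟩
          rw [ev_mul h4 h5]
          rfl
      have h8 : H33.ev w⁻¹ (sy (TrP D φ (κ s)) a b) =
          ∑ c, sy (W D (pv φ (w - κ s))) a c * (sy (en D.r q) c b).eval (Real.log w) := by
        rw [(h3 a b).2, h2, hs1, Matrix.mul_apply]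
        refine Finset.sum_congr rfl fun c _ => ?_
        congr 1
        have h9 := congrFun (congrFun (hs3 D.r ℝ[X] ℝ (evalRingHom (Real.log w)) (en D.r q)) c) b
        rw [en_mapq] at h9
        exact h9
      rw [← h8, one_div]
      exact (h3 a b).1.summable.hasSum
    rw [Filter.eventually_all]
    exact h1
  · intro c hc β α
    have h := hpep c hc
    rw [h]; rfl
  · rw [Finset.sum_comm]
    exact hp

/-- module FRP -/
theorem frp (hsym : SymStmt) (htrp : TrpStmt) (hvap : VapStmt) (hpep : PepStmt) : FrpStmt := by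
  intro D φ hφ ι _ _ κ hκ
  exact frpAt hsym htrp hvap D φ hφ.deg hφ.lead ι κ (hpep D φ hφ ι κ hκ)

end Pool.Agent.MT100.H33P
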